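import Pool.Agent.helper17.MLG.Spec

/-! # Row mlg:CVL (MP_84f457_gt) -/

set_option autoImplicit false
set_option linter.unusedSectionVars false

namespace Pool.Agent.MLG

open MeasureTheory Set Filter Topology Module
open scoped ENNReal ContDiff

section CVL_sec

variable {V : Type} [NormedAddCommGroup V] [InnerProductSpace ℝ V] [FiniteDimensional ℝ V] [MeasurableSpace V]
  [BorelSpace V] [Group V]

/-- continuity of the translation in `L¹` -/
theorem CVL_trans (hV : IsLie V) (hH : (vol V).IsHaarMeasure) (f : V → ℝ) (hf : Integrable f (vol V)) :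
    Tendsto (fun g : V => ∫⁻ x, ‖f (g⁻¹ * x) - f x‖ₑ ∂(vol V)) (𝓝 1) (𝓝 0) := by
  haveI := top hV
  haveI := hH
  have hf1 : MemLp f 1 (vol V) := memLp_one_iff_integrable.2 hf
  let K : C(V, C(V, V)) := ContinuousMap.curry ⟨fun p : V × V => p.1⁻¹ * p.2, by fun_prop⟩
  have hKa : ∀ g x : V, K g x = g⁻¹ * x := fun g x => rfl
  have hmp : ∀ g : V, MeasurePreserving (K g) (vol V) (vol V) := fun g => measurePreserving_mul_left (vol V) g⁻¹
  have hK : Tendsto (fun g : V => K g) (𝓝 1) (𝓝 (K 1)) := K.continuous.tendsto 1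
  have h1 : Tendsto (fun g : V => Lp.compMeasurePreserving (K g) (hmp g) (hf1.toLp f)) (𝓝 1)
      (𝓝 (Lp.compMeasurePreserving (K 1) (hmp 1) (hf1.toLp f))) :=
    Filter.Tendsto.compMeasurePreservingLp tendsto_const_nhds hK hmp (hmp 1) ENNReal.one_ne_top
  rw [tendsto_iff_edist_tendsto_0] at h1
  refine h1.congr fun g => ?_
  rw [Lp.toLp_compMeasurePreserving, Lp.toLp_compMeasurePreserving, Lp.edist_toLp_toLp,
    eLpNorm_one_eq_lintegral_enorm]
  refine lintegral_congr fun x => ?_
  have e1 : ((f ∘ (K g) - f ∘ (K 1)) x : ℝ) = f (g⁻¹ * x) - f x := by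
    have : (K 1) x = x := by rw [hKa, inv_one, one_mul]
    show f ((K g) x) - f ((K 1) x) = _
    rw [this, hKa]
  rw [e1]

end CVL_sec

theorem CVL (hMES : MES_stmt) : CVL_stmt := by
  intro V _ _ _ _ _ _ hV m u hm hsupp hu C hC
  have hH := (hMES V hV).1
  haveI := top hV
  haveI := hH
  set μ := vol V with hμ
  obtain ⟨U₀, hU₀c, hU₀⟩ := exists_compact_mem_nhds (1 : V)
  set C' : Set V := (fun p : V × V => p.1⁻¹ * p.2) '' (U₀ ×ˢ C) with hC'
  have hC'c : IsCompact C' := (hU₀c.prod hC).image (by fun_prop)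
  set D : Set V := C' ∪ C with hD
  have hDc : IsCompact D := hC'c.union hC
  set f : V → ℝ := D.indicator u with hfdef
  have hDm : MeasurableSet D := hDc.measurableSet
  have hfm : Measurable f := hu.meas.indicator hDm
  have hfi : Integrable f μ := by
    rw [hfdef, integrable_indicator_iff hDm]
    refine Measure.integrableOn_of_bounded (M := 1) hDc.measure_lt_top.ne hu.meas.aestronglyMeasurable ?_
    refine Filter.Eventually.of_forall fun x => ?_
    rw [Real.norm_eq_abs, abs_of_nonneg (hu.nonneg x)]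
    exact hu.le_one x
  have htr := CVL_trans hV hH f hfi
  rw [ENNReal.tendsto_nhds_zero] at htr ⊢
  intro ε hε
  have hW := htr ε hε
  have hUW : (U₀ ∩ {g : V | ∫⁻ x, ‖f (g⁻¹ * x) - f x‖ₑ ∂(vol V) ≤ ε}) ∈ 𝓝 (1 : V) := inter_mem hU₀ hW
  filter_upwards [hsupp _ hUW] with k hk
  have hmk := hm k
  have hmi : Integrable (m k) μ := hmk.smooth.continuous.integrable_of_hasCompactSupport hmk.supp
  have hin : ∀ x, Integrable (fun g => m k g * u (g⁻¹ * x)) μ := by
    intro x
    have hmeas : AEStronglyMeasurable (fun g : V => u (g⁻¹ * x)) μ := by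
      have : Measurable (fun g : V => u (g⁻¹ * x)) := hu.meas.comp (by fun_prop)
      exact this.aestronglyMeasurable
    refine Integrable.mono hmi (hmi.aestronglyMeasurable.mul hmeas) (Filter.Eventually.of_forall fun g => ?_)
    rw [norm_mul]
    have h1 : ‖u (g⁻¹ * x)‖ ≤ 1 := by
      rw [Real.norm_eq_abs, abs_of_nonneg (hu.nonneg _)]
      exact hu.le_one _
    calc ‖m k g‖ * ‖u (g⁻¹ * x)‖ ≤ ‖m k g‖ * 1 := mul_le_mul_of_nonneg_left h1 (norm_nonneg _)
      _ = ‖m k g‖ := mul_one _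
  have hpt : ∀ x ∈ C, ENNReal.ofReal |cv (m k) u x - u x| ≤
      ∫⁻ g, ENNReal.ofReal (m k g) * ‖f (g⁻¹ * x) - f x‖ₑ ∂μ := by
    intro x hx
    have e1 : cv (m k) u x - u x = ∫ g, m k g * (f (g⁻¹ * x) - f x) ∂μ := by
      have e2 : u x = ∫ g, m k g * u x ∂μ := by
        rw [integral_mul_const]
        have : ∫ g, m k g ∂μ = 1 := hmk.int
        rw [this, one_mul]
      unfold cv
      rw [e2, ← integral_sub (hin x) (hmi.mul_const _)]
      refine integral_congr_ae (Filter.Eventually.of_forall fun g => ?_)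
      show m k g * u (g⁻¹ * x) - m k g * u x = m k g * (f (g⁻¹ * x) - f x)
      by_cases hg : g ∈ tsupport (m k)
      · have hgU : g ∈ U₀ := (hk hg).1
        have hx1 : g⁻¹ * x ∈ D := Or.inl ⟨(g, x), ⟨hgU, hx⟩, rfl⟩
        have hx2 : x ∈ D := Or.inr hx
        rw [hfdef, indicator_of_mem hx1, indicator_of_mem hx2, mul_sub]
      · rw [image_eq_zero_of_notMem_tsupport hg]
        ring
    rw [e1, ← Real.enorm_eq_ofReal_abs]
    refine (enorm_integral_le_lintegral_enorm _).trans (lintegral_mono fun g => ?_)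
    show ‖m k g * (f (g⁻¹ * x) - f x)‖ₑ ≤ _
    rw [enorm_mul, Real.enorm_eq_ofReal (hmk.nonneg g)]
  have hmeas2 : Measurable (fun p : V × V => ENNReal.ofReal (m k p.2) * ‖f (p.2⁻¹ * p.1) - f p.1‖ₑ) := by
    have h1 : Measurable (fun p : V × V => ENNReal.ofReal (m k p.2)) :=
      (hmk.smooth.continuous.measurable.comp measurable_snd).ennreal_ofReal
    have h2 : Measurable (fun p : V × V => f (p.2⁻¹ * p.1)) := by
      apply hfm.comp
      have : Continuous (fun p : V × V => p.2⁻¹ * p.1) := by fun_prop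
      exact this.measurable
    have h3 : Measurable (fun p : V × V => f p.1) := hfm.comp measurable_fst
    exact h1.mul (h2.sub h3).enorm
  calc ∫⁻ x in C, ENNReal.ofReal |cv (m k) u x - u x| ∂μ
      ≤ ∫⁻ x in C, ∫⁻ g, ENNReal.ofReal (m k g) * ‖f (g⁻¹ * x) - f x‖ₑ ∂μ ∂μ :=
        setLIntegral_mono' hC.measurableSet hpt
    _ ≤ ∫⁻ x, ∫⁻ g, ENNReal.ofReal (m k g) * ‖f (g⁻¹ * x) - f x‖ₑ ∂μ ∂μ := setLIntegral_le_lintegral _ _
    _ = ∫⁻ g, ∫⁻ x, ENNReal.ofReal (m k g) * ‖f (g⁻¹ * x) - f x‖ₑ ∂μ ∂μ :=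
        lintegral_lintegral_swap hmeas2.aemeasurable
    _ ≤ ∫⁻ g, ENNReal.ofReal (m k g) * ε ∂μ := by
        refine lintegral_mono fun g => ?_
        have hme : Measurable (fun x : V => ‖f (g⁻¹ * x) - f x‖ₑ) := by
          have h2 : Measurable (fun x : V => f (g⁻¹ * x)) := by
            apply hfm.comp
            have : Continuous (fun x : V => g⁻¹ * x) := by fun_prop
            exact this.measurable
          exact (h2.sub hfm).enorm
        rw [lintegral_const_mul _ hme]
        by_cases hg : g ∈ tsupport (m k)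
        · exact mul_le_mul_right (hk hg).2 _
        · rw [image_eq_zero_of_notMem_tsupport hg]
          simp
    _ = ε := by
        rw [lintegral_mul_const _ hmk.smooth.continuous.measurable.ennreal_ofReal,
          ← ofReal_integral_eq_lintegral_ofReal hmi (Filter.Eventually.of_forall hmk.nonneg)]
        have : ∫ g, m k g ∂μ = 1 := hmk.int
        rw [this, ENNReal.ofReal_one, one_mul]

end Pool.Agent.MLG
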