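import Pool.Agent.helper17.MLG.Spec

/-! # Row mlg:STR (MP_84f457_gt) -/

set_option autoImplicit false
set_option linter.unusedSectionVars false

namespace Pool.Agent.MLG

open MeasureTheory Set Filter Topology Module
open scoped ENNReal ContDiff

theorem STR (hCON : CON_stmt) (hCHN : CHN_stmt) (hTRI : TRI_stmt) (hCLO : CLO_stmt) (hPOI : POI_stmt)
    (hRHA : RHA_stmt) (hAFF : AFF_stmt) (hGRR : GRR_stmt) : STR_stmt := by
  intro V _ _ _ _ _ _ hV h2
  haveI := top hV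
  have h1 : 1 ≤ finrank ℝ V := le_trans (by norm_num) h2
  have hcon := (hCON V hV h1).1
  by_contra hns
  obtain ⟨a, b, c, L, ha, hab, haff⟩ := hAFF (Ip V) hcon hns
  obtain ⟨h, m, hh, hhc, ⟨x₁, hx₁⟩, hm, hm1, heq⟩ := hCHN V hV h1 a b c L ha hab haff
  obtain ⟨g1, -, -, -, -, g2, -, -⟩ := hGRR V hV
  have hex : ∃ x, gr h x ≠ 0 := by
    by_contra hno
    push Not at hno
    have hd : ∀ x, fderiv ℝ h x = 0 := fun x => (g2 h x).1 (hno x)
    have hdiff : Differentiable ℝ h := hh.differentiable (by simp)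
    have hcst := is_const_of_fderiv_eq_zero hdiff hd
    haveI : Nontrivial V := Module.nontrivial_of_finrank_pos (R := ℝ) (by omega)
    haveI : NoncompactSpace V := NormedSpace.noncompactSpace ℝ V
    have hne : tsupport h ≠ univ := by
      intro hu
      have := hhc.isCompact
      rw [hu] at this
      exact noncompact_univ V this
    obtain ⟨y, hy⟩ := (ne_univ_iff_exists_notMem _).1 hne
    have hy0 : h y = 0 := image_eq_zero_of_notMem_tsupport hy
    exact hx₁ ((hcst x₁ y).trans hy0)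
  have htri := hTRI V hV (gr h) m (g1 h hh).continuous hm heq
  have hW : ∃ W ∈ 𝓝 (1 : V), ∀ p, ∃ ν : V, ∀ g ∈ W, gr h (g * p) = ‖gr h (g * p)‖ • ν := by
    refine ⟨{g : V | m g⁻¹ ≠ 0}, ?_, ?_⟩
    · have hcont : Continuous (fun g : V => m g⁻¹) := hm.smooth.continuous.comp continuous_inv
      have hopen : IsOpen {g : V | m g⁻¹ ≠ 0} := isOpen_ne_fun hcont continuous_const
      refine hopen.mem_nhds ?_
      show m (1 : V)⁻¹ ≠ 0
      rw [inv_one]
      exact hm1.ne'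
    · intro p
      obtain ⟨ν, hν⟩ := htri p
      refine ⟨ν, fun g hg => ?_⟩
      have := hν g⁻¹ hg
      rwa [inv_inv] at this
  obtain ⟨β, ν, x₀, hβ, hβc, hβs, hβ0, hβ1⟩ := hCLO V hV h hh hhc hex hW
  obtain ⟨Ψ, hΨ, hΨc, hΨd⟩ := hPOI V h2 β hβ hβc hβs
  have h3 : ∀ x, 0 ≤ fderiv ℝ Ψ x (fr x ν) := by
    intro x
    rw [hΨd x]
    exact hβ0 x
  have h4 := hRHA V hV Ψ ν hΨ hΨc h3 x₀
  rw [hΨd x₀] at h4
  exact hβ1.ne' h4

end Pool.Agent.MLG
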